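import Pool.Agent.W78.GH.Defs
import Pool.Agent.W591.GA.Equ

/-!
Project GH (helper78), GH-1: few pairs of determinant one for which `ip` has no small odd prime
factor.
-/

set_option autoImplicit false

namespace Pool.Agent.W310.GH

open Finset Filter
open Pool.Agent.W78.GA
open Pool.Agent.W78.GH

/-- pairs -/
abbrev PP := Qd 0 1 × Qd 0 1

/-- congruent modulo `N` -/
def CgP (N : ℕ) (e f : PP) : Prop :=
  (N : ℤ) ∣ e.1.re - f.1.re ∧ (N : ℤ) ∣ e.1.im - f.1.im ∧ (N : ℤ) ∣ e.2.re - f.2.re ∧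
    (N : ℤ) ∣ e.2.im - f.2.im

/-- `S` meets at most `k` residue classes of pairs modulo `N` -/
def OccP (S : Set PP) (N k : ℕ) : Prop :=
  ∃ (β : Type) (T : Finset β) (f : PP → β), T.card ≤ k ∧ (∀ e ∈ S, f e ∈ T) ∧
    ∀ e ∈ S, ∀ e' ∈ S, f e = f e' → CgP N e e'

lemma mul_dvd_of {N M : ℕ} (hco : Nat.Coprime N M) {z : ℤ}
    (h1 : (N : ℤ) ∣ z) (h2 : (M : ℤ) ∣ z) : ((N * M : ℕ) : ℤ) ∣ z := by
  have h4 : IsCoprime (N : ℤ) (M : ℤ) := Nat.isCoprime_iff_coprime.2 hco
  push_cast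
  exact h4.mul_dvd h1 h2

lemma OccP.inter {S T : Set PP} {N M k j : ℕ} (h : OccP S N k)
    (h' : OccP T M j) (hco : Nat.Coprime N M) : OccP (S ∩ T) (N * M) (k * j) := by
  obtain ⟨β, U, f, h1, h2, h3⟩ := h
  obtain ⟨γ, V, g, g1, g2, g3⟩ := h'
  refine ⟨β × γ, U ×ˢ V, fun e => (f e, g e), ?_, ?_, ?_⟩
  · rw [Finset.card_product]; exact Nat.mul_le_mul h1 g1
  · intro e he
    exact Finset.mem_product.2 ⟨h2 e he.1, g2 e he.2⟩
  · intro e he e' he' hee
    have h5 := Prod.mk.inj hee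
    obtain ⟨a1, a2, a3, a4⟩ := h3 e he.1 e' he'.1 h5.1
    obtain ⟨b1, b2, b3, b4⟩ := g3 e he.2 e' he'.2 h5.2
    exact ⟨mul_dvd_of hco a1 b1, mul_dvd_of hco a2 b2, mul_dvd_of hco a3 b3,
      mul_dvd_of hco a4 b4⟩

lemma OccP.card_le {S : Set PP} {N k : ℕ} (h : OccP S N k)
    (s t : Finset PP) (hst : s ⊆ t) (hs : ∀ e ∈ s, e ∈ S)
    (B : ℝ) (hB0 : 0 ≤ B)
    (hB : ∀ f ∈ s, (open scoped Classical in
      ((t.filter (fun e => CgP N e f)).card : ℝ)) ≤ B) :
    (s.card : ℝ) ≤ k * B := by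
  classical
  obtain ⟨β, U, f, h1, h2, h3⟩ := h
  have h4 := Finset.card_eq_sum_card_fiberwise (f := fun e => f e) (s := s) (t := U)
    (fun e he => h2 _ (hs e he))
  have h5 : ∀ b ∈ U, (((s.filter (fun e => f e = b)).card : ℕ) : ℝ) ≤ B := by
    intro b _
    rcases (s.filter (fun e => f e = b)).eq_empty_or_nonempty with h5 | ⟨e₀, h5⟩
    · rw [h5]; simpa using hB0
    · have h6 := mem_filter.1 h5
      refine le_trans ?_ (hB e₀ h6.1)
      have : (s.filter (fun e => f e = b)) ⊆ t.filter (fun e => CgP N e e₀) := by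
        intro e he
        rw [mem_filter] at he
        rw [mem_filter]
        exact ⟨hst he.1, h3 _ (hs e he.1) _ (hs e₀ h6.1) (he.2.trans h6.2.symm)⟩
      exact_mod_cast Finset.card_le_card this
  rw [h4]
  push_cast
  refine (Finset.sum_le_sum h5).trans ?_
  rw [sum_const, nsmul_eq_mul]
  refine mul_le_mul_of_nonneg_right ?_ hB0
  exact_mod_cast h1

lemma dvd_of_cast {N : ℕ} {a b : ℤ} (h : (a : ZMod N) = (b : ZMod N)) : (N : ℤ) ∣ a - b := by
  rw [← ZMod.intCast_zmod_eq_zero_iff_dvd]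
  push_cast
  rw [h, sub_self]

/-- the set of pairs of determinant one with `q ∤ ip` for the `q` in `s` -/
def SQ (s : Finset ℕ) : Set PP := {e | dt e.1 e.2 = 1 ∧ ∀ q ∈ s, ¬ ((q : ℕ) : ℤ) ∣ ip e.1 e.2}

lemma card_sq_le {q : ℕ} [Fact q.Prime] :
    ((univ : Finset (ZMod q × ZMod q)).filter (fun p => p.1 ^ 2 + p.2 ^ 2 = 0)).card ≤ 2 * q := by
  classical
  have h : ((univ : Finset (ZMod q × ZMod q)).filter (fun p => p.1 ^ 2 + p.2 ^ 2 = 0)).card ≤
      (univ : Finset (ZMod q)).card * 2 := by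
    refine Finset.card_le_mul_card_image_of_maps_to (f := Prod.snd) (fun _ _ => mem_univ _) 2 ?_ |>.trans
      (by rw [mul_comm])
    intro b _
    by_cases hb : (((univ : Finset (ZMod q × ZMod q)).filter
      (fun p => p.1 ^ 2 + p.2 ^ 2 = 0)).filter (fun x => x.2 = b)) = ∅
    · rw [hb]; simp
    · obtain ⟨⟨x0, y0⟩, h0⟩ := Finset.nonempty_iff_ne_empty.2 hb
      simp only [mem_filter, mem_univ, true_and] at h0
      have hsub : (((univ : Finset (ZMod q × ZMod q)).filter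
        (fun p => p.1 ^ 2 + p.2 ^ 2 = 0)).filter (fun x => x.2 = b)) ⊆
          {(x0, b), (-x0, b)} := by
        rintro ⟨x, y⟩ hx
        simp only [mem_filter, mem_univ, true_and] at hx
        obtain ⟨hx1, rfl⟩ := hx
        obtain ⟨h01, h02⟩ := h0
        subst h02
        have : x ^ 2 = x0 ^ 2 := by linear_combination hx1 - h01
        rcases sq_eq_sq_iff_eq_or_eq_neg.1 this with h | h
        · simp [h]
        · simp [h]
      exact (card_le_card hsub).trans card_le_two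
  rw [card_univ, ZMod.card] at h
  omega

lemma occ_one {q : ℕ} (hq : q.Prime) :
    OccP {e | dt e.1 e.2 = 1 ∧ ¬ ((q : ℕ) : ℤ) ∣ ip e.1 e.2} q (q ^ 3 - (q ^ 2 - 2 * q)) := by
  classical
  have : Fact q.Prime := ⟨hq⟩
  set n0 := (univ : Finset (ZMod q × ZMod q)).filter (fun p => p.1 ^ 2 + p.2 ^ 2 = 0) with hn0
  -- removed set
  set n1 := (univ : Finset (ZMod q × ZMod q)).filter (fun p => ¬ (p.1 ^ 2 + p.2 ^ 2 = 0)) with hn1
  set R : Finset ((ZMod q × ZMod q) × ZMod q) := n1 ×ˢ {0} with hR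
  have hRc : q ^ 2 - 2 * q ≤ R.card := by
    rw [hR, card_product, card_singleton, mul_one]
    have h1 := Finset.card_filter_add_card_filter_not
      (s := (univ : Finset (ZMod q × ZMod q))) (fun p => p.1 ^ 2 + p.2 ^ 2 = 0)
    have h2 : (univ : Finset (ZMod q × ZMod q)).card = q ^ 2 := by
      rw [card_univ, Fintype.card_prod, ZMod.card, sq]
    have h3 := card_sq_le (q := q)
    rw [← hn0] at h3 h1
    rw [← hn1, h2] at h1
    omega
  refine ⟨(ZMod q × ZMod q) × ZMod q, univ \ R, fun e =>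
    (((e.1.re : ZMod q), (e.1.im : ZMod q)),
      if ((e.1.re : ZMod q)) ^ 2 + ((e.1.im : ZMod q)) ^ 2 = 0 then ((e.2.re : ℤ) : ZMod q)
      else ((ip e.1 e.2 : ℤ) : ZMod q)), ?_, ?_, ?_⟩
  · rw [card_sdiff_of_subset (subset_univ _), card_univ, Fintype.card_prod, Fintype.card_prod,
      ZMod.card]
    have : q * q * q = q ^ 3 := by ring
    rw [this]
    omega
  · rintro e ⟨h1, h2⟩
    refine mem_sdiff.2 ⟨mem_univ _, ?_⟩
    rw [hR, mem_product, mem_singleton, hn1, mem_filter]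
    rintro ⟨⟨-, h3⟩, h4⟩
    simp only at h3 h4
    rw [if_neg h3] at h4
    exact h2 ((ZMod.intCast_zmod_eq_zero_iff_dvd _ _).1 h4)
  · rintro e ⟨h1, h2⟩ e' ⟨h3, h4⟩ hee
    obtain ⟨g1, g2⟩ := Prod.mk.inj hee
    obtain ⟨g1, g3⟩ := Prod.mk.inj g1
    have d1 : ((e.1.re : ZMod q)) * (e.2.im : ZMod q) - (e.1.im : ZMod q) * (e.2.re : ZMod q) = 1 := by
      have := congrArg (fun z : ℤ => (z : ZMod q)) h1
      unfold dt at this
      push_cast at this
      exact this
    have d2 : ((e.1.re : ZMod q)) * (e'.2.im : ZMod q) - (e.1.im : ZMod q) * (e'.2.re : ZMod q) = 1 := by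
      have := congrArg (fun z : ℤ => (z : ZMod q)) h3
      unfold dt at this
      push_cast at this
      rw [g1, g3]
      exact this
    rw [← g1, ← g3] at g2
    have key : (e.2.re : ZMod q) = (e'.2.re : ZMod q) ∧ (e.2.im : ZMod q) = (e'.2.im : ZMod q) := by
      by_cases hN : ((e.1.re : ZMod q)) ^ 2 + ((e.1.im : ZMod q)) ^ 2 = 0
      · rw [if_pos hN, if_pos hN] at g2
        refine ⟨g2, ?_⟩
        have hre : (e.1.re : ZMod q) ≠ 0 := by
          intro h0
          rw [h0] at hN d1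
          have h5 : (e.1.im : ZMod q) = 0 := by
            have : ((e.1.im : ZMod q)) ^ 2 = 0 := by linear_combination hN
            exact pow_eq_zero_iff (two_ne_zero) |>.1 this
          rw [h5] at d1
          simp at d1
        have : (e.1.re : ZMod q) * ((e.2.im : ZMod q) - (e'.2.im : ZMod q)) = 0 := by
          linear_combination d1 - d2 + (e.1.im : ZMod q) * g2
        rcases mul_eq_zero.1 this with h | h
        · exact absurd h hre
        · exact sub_eq_zero.1 h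
      · rw [if_neg hN, if_neg hN] at g2
        unfold ip at g2
        push_cast at g2
        rw [← g1, ← g3] at g2
        constructor
        · have : (((e.1.re : ZMod q)) ^ 2 + ((e.1.im : ZMod q)) ^ 2) *
            ((e.2.re : ZMod q) - (e'.2.re : ZMod q)) = 0 := by
            linear_combination (e.1.re : ZMod q) * g2 - (e.1.im : ZMod q) * (d1 - d2)
          rcases mul_eq_zero.1 this with h | h
          · exact absurd h hN
          · exact sub_eq_zero.1 h
        · have : (((e.1.re : ZMod q)) ^ 2 + ((e.1.im : ZMod q)) ^ 2) *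
            ((e.2.im : ZMod q) - (e'.2.im : ZMod q)) = 0 := by
            linear_combination (e.1.im : ZMod q) * g2 + (e.1.re : ZMod q) * (d1 - d2)
          rcases mul_eq_zero.1 this with h | h
          · exact absurd h hN
          · exact sub_eq_zero.1 h
    exact ⟨dvd_of_cast g1, dvd_of_cast g3, dvd_of_cast key.1, dvd_of_cast key.2⟩

/-- number of classes for one prime -/
def kq (q : ℕ) : ℕ := q ^ 3 - (q ^ 2 - 2 * q)

lemma occ_prod (s : Finset ℕ) (hs : ∀ q ∈ s, q.Prime ∧ 3 ≤ q) :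
    OccP (SQ s) (∏ q ∈ s, q) (∏ q ∈ s, kq q) := by
  classical
  induction s using Finset.induction_on with
  | empty =>
    refine ⟨Unit, univ, fun _ => (), by simp, fun _ _ => mem_univ _, ?_⟩
    intro e _ e' _ _
    simp [CgP]
  | insert a s ha ih =>
    rw [prod_insert ha, prod_insert ha]
    have h1 := occ_one (hs a (mem_insert_self _ _)).1
    have h2 := ih (fun q hq => hs q (mem_insert_of_mem hq))
    have hco : Nat.Coprime a (∏ q ∈ s, q) := by
      refine Nat.Coprime.prod_right (fun q hq => ?_)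
      refine (Nat.coprime_primes (hs a (mem_insert_self _ _)).1
        (hs q (mem_insert_of_mem hq)).1).2 ?_
      rintro rfl
      exact ha hq
    obtain ⟨β, T, f, f1, f2, f3⟩ := h1.inter h2 hco
    refine ⟨β, T, f, f1, ?_, ?_⟩
    · intro e he
      exact f2 e ⟨⟨he.1, he.2 a (mem_insert_self _ _)⟩,
        ⟨he.1, fun q hq => he.2 q (mem_insert_of_mem hq)⟩⟩
    · intro e he e' he'
      exact f3 e ⟨⟨he.1, he.2 a (mem_insert_self _ _)⟩,
        ⟨he.1, fun q hq => he.2 q (mem_insert_of_mem hq)⟩⟩ e' ⟨⟨he'.1, he'.2 a (mem_insert_self _ _)⟩,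
        ⟨he'.1, fun q hq => he'.2 q (mem_insert_of_mem hq)⟩⟩

lemma kq_le {q : ℕ} (hq3 : 3 ≤ q) : (kq q : ℝ) ≤ (q : ℝ) ^ 3 * Real.exp (-(1 / 3 * (1 / (q : ℝ)))) := by
  have hqR : (3 : ℝ) ≤ q := by exact_mod_cast hq3
  have h1 : 2 * q ≤ q ^ 2 := by nlinarith
  have h2 : q ^ 2 - 2 * q ≤ q ^ 3 := by
    calc q ^ 2 - 2 * q ≤ q ^ 2 := Nat.sub_le _ _
      _ ≤ q ^ 3 := Nat.pow_le_pow_right (by omega) (by norm_num)
  have h3 : (kq q : ℝ) = (q : ℝ) ^ 3 - ((q : ℝ) ^ 2 - 2 * q) := by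
    unfold kq
    rw [Nat.cast_sub h2, Nat.cast_sub h1]
    push_cast
    ring
  have h4 := Real.add_one_le_exp (-(1 / 3 * (1 / (q : ℝ))))
  have hq0 : (0 : ℝ) < q := by linarith
  calc (kq q : ℝ) ≤ (q : ℝ) ^ 3 * (-(1 / 3 * (1 / (q : ℝ))) + 1) := by
        rw [h3]
        have : (q : ℝ) ^ 3 * (-(1 / 3 * (1 / (q : ℝ))) + 1) = (q : ℝ) ^ 3 - (q : ℝ) ^ 2 / 3 := by
          field_simp
          ring
        rw [this]
        nlinarith
    _ ≤ _ := mul_le_mul_of_nonneg_left h4 (by positivity)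

lemma prod_kq_le (s : Finset ℕ) (hs : ∀ q ∈ s, q.Prime ∧ 3 ≤ q) :
    ((∏ q ∈ s, kq q : ℕ) : ℝ) ≤ ((∏ q ∈ s, q : ℕ) : ℝ) ^ 3 *
      Real.exp (-(1 / 3 * ∑ q ∈ s, (1 / (q : ℝ)))) := by
  have h1 : ((∏ q ∈ s, kq q : ℕ) : ℝ) ≤
      ∏ q ∈ s, ((q : ℝ) ^ 3 * Real.exp (-(1 / 3 * (1 / (q : ℝ))))) := by
    push_cast
    exact Finset.prod_le_prod (fun q _ => by positivity) (fun q hq => kq_le (hs q hq).2)
  refine h1.trans (le_of_eq ?_)
  rw [prod_mul_distrib, ← Real.exp_sum]
  push_cast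
  rw [prod_pow]
  congr 2
  rw [mul_sum, sum_neg_distrib]

/-- the odd primes up to `Q` -/
def op (Q : ℕ) : Finset ℕ := (range (Q + 1)).filter (fun q => q.Prime ∧ 3 ≤ q)

lemma sum_op (B : ℝ) : ∃ Q : ℕ, B ≤ ∑ q ∈ op Q, (1 / (q : ℝ)) := by
  have h1 := not_summable_one_div_on_primes
  have h2 : Tendsto (fun n : ℕ => ∑ i ∈ range n, Set.indicator {p : ℕ | p.Prime}
      (fun n : ℕ => (1 : ℝ) / n) i) atTop atTop := by
    refine (not_summable_iff_tendsto_nat_atTop_of_nonneg ?_).1 h1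
    intro n
    refine Set.indicator_nonneg (fun n _ => by positivity) n
  obtain ⟨n, hn⟩ := ((tendsto_atTop.1 h2 (B + 1 / 2)).and (eventually_ge_atTop 1)).exists
  refine ⟨n, ?_⟩
  obtain ⟨hn, hn1⟩ := hn
  have h3 : ∑ i ∈ range n, Set.indicator {p : ℕ | p.Prime} (fun n : ℕ => (1 : ℝ) / n) i ≤
      ∑ q ∈ op n, (1 / (q : ℝ)) + 1 / 2 := by
    have h4 : ∑ i ∈ range n, Set.indicator {p : ℕ | p.Prime} (fun n : ℕ => (1 : ℝ) / n) i =
        ∑ i ∈ (range n).filter (fun q => q.Prime), (1 / (i : ℝ)) := by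
      rw [sum_filter]
      refine sum_congr rfl (fun i _ => ?_)
      simp [Set.indicator_apply]
    rw [h4]
    have h5 : (range n).filter (fun q => q.Prime) ⊆ op n ∪ {2} := by
      intro q hq
      rw [mem_filter, mem_range] at hq
      rw [mem_union, mem_singleton]
      unfold op
      rw [mem_filter, mem_range]
      by_cases h : q = 2
      · exact Or.inr h
      · have := hq.2.two_le
        exact Or.inl ⟨by omega, hq.2, by omega⟩
    refine (sum_le_sum_of_subset_of_nonneg h5 (fun i _ _ => by positivity)).trans ?_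
    have h6 : Disjoint (op n) {2} := by
      rw [disjoint_singleton_right]
      unfold op
      rw [mem_filter]
      rintro ⟨_, _, h⟩
      omega
    rw [sum_union h6]
    simp
  linarith

theorem nq : S_NQ := by
  classical
  intro δ hδ
  obtain ⟨C, hC, hE⟩ := Pool.Agent.W591.GA.equ_of (t := 0) (c := 1) (by norm_num)
  obtain ⟨X₀, hX₀⟩ := hE 1
  -- choose Q
  obtain ⟨Q, hQ⟩ := sum_op (3 * (-Real.log (δ / C)))
  set s := op Q with hs
  have hsp : ∀ q ∈ s, q.Prime ∧ 3 ≤ q := by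
    intro q hq
    rw [hs] at hq
    unfold op at hq
    exact (mem_filter.1 hq).2
  set M : ℕ := ∏ q ∈ s, q with hM
  have hM1 : 1 ≤ M := by
    rw [hM]
    exact Finset.prod_pos (fun q hq => (hsp q hq).1.pos)
  refine ⟨Q, max X₀ (Real.exp M), fun X hX => ?_⟩
  have hXX : X₀ ≤ X := (le_max_left _ _).trans hX
  have hXM : Real.exp M ≤ X := (le_max_right _ _).trans hX
  have hX0 : 0 < X := (Real.exp_pos _).trans_le hXM
  have hlog : (M : ℝ) ≤ Real.log X ^ 1 := by
    rw [pow_one, Real.le_log_iff_exp_le hX0]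
    exact hXM
  have hMR : (0 : ℝ) < (M : ℝ) := by exact_mod_cast hM1
  have h1 := (occ_prod s hsp).card_le (Nq Q X) (dedge 0 1 X) (by unfold Nq; exact filter_subset _ _)
    (fun e he => by
      unfold Nq at he
      rw [mem_filter] at he
      unfold dedge at he
      refine ⟨(mem_filter.1 he.1).2, fun q hq => ?_⟩
      have h2 := hsp q hq
      rw [hs] at hq
      unfold op at hq
      rw [mem_filter, mem_range] at hq
      exact he.2 q h2.1 h2.2 (by omega))
    (C * X / (M : ℝ) ^ 3) (by positivity)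
    (fun f _ => by
      have := hX₀ X M f.1.re f.1.im f.2.re f.2.im hXX hM1 hlog
      refine le_trans (le_of_eq ?_) this
      congr 2
      ext e
      rw [mem_filter, mem_filter]
      exact Iff.rfl)
  refine h1.trans ?_
  have h2 := prod_kq_le s hsp
  rw [← hM] at h2
  have h3 : Real.exp (-(1 / 3 * ∑ q ∈ s, (1 / (q : ℝ)))) ≤ δ / C := by
    rw [← Real.exp_log (show 0 < δ / C by positivity)]
    apply Real.exp_le_exp.2
    linarith
  calc ((∏ q ∈ s, kq q : ℕ) : ℝ) * (C * X / (M : ℝ) ^ 3)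
      ≤ ((M : ℝ) ^ 3 * (δ / C)) * (C * X / (M : ℝ) ^ 3) := by
        refine mul_le_mul_of_nonneg_right ?_ (by positivity)
        exact h2.trans (mul_le_mul_of_nonneg_left h3 (by positivity))
    _ = δ * X := by
        field_simp

end Pool.Agent.W310.GH
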